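import Pool.Agent.H97.LA.Targets

/-!
`MP_c62aed_lc`, linear algebra gates: row NUMX (the constants).
-/

set_option autoImplicit false

namespace Pool.Agent.H40.LA

open Finset Pool.Agent.H60.SYM Pool.Agent.H42.XS Pool.Agent.H97.LA

/-- small `k` are excluded -/
theorem nine_le {k : ℕ} (hk : 2 ≤ k) (h : 12 * Real.log k / √k < 1) : 9 ≤ Real.log k := by
  by_contra hcon
  push Not at hcon
  have hk0 : (0 : ℝ) < k := by positivity
  have hk2 : (2 : ℝ) ≤ k := by exact_mod_cast hk
  have hx0 : 0 < √(k : ℝ) := Real.sqrt_pos.2 hk0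
  have hL2 : Real.log 2 ≤ Real.log k := Real.log_le_log (by norm_num) hk2
  have h2a := Real.log_two_gt_d9
  have h2b := Real.log_two_lt_d9
  have hsq : √(k : ℝ) = Real.exp (Real.log k / 2) := by
    rw [Real.exp_half, Real.exp_log hk0]
  rw [div_lt_one hx0, hsq] at h
  -- the chord
  set t := Real.log k with ht
  set a := (9 - t) / (9 - Real.log 2) with ha
  set b := (t - Real.log 2) / (9 - Real.log 2) with hb
  have hd : 0 < 9 - Real.log 2 := by linarith
  have ha0 : 0 ≤ a := div_nonneg (by linarith) hd.le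
  have hb0 : 0 ≤ b := div_nonneg (by linarith) hd.le
  have hab : a + b = 1 := by
    rw [ha, hb, ← add_div, div_eq_one_iff_eq hd.ne']
    ring
  have hcomb : a * Real.log 2 + b * 9 = t := by
    rw [ha, hb]
    field_simp
    ring
  have hconv := convexOn_exp.2 (Set.mem_univ (Real.log 2 / 2)) (Set.mem_univ (9 / 2 : ℝ)) ha0 hb0 hab
  simp only [smul_eq_mul] at hconv
  have e1 : a * (Real.log 2 / 2) + b * (9 / 2) = t / 2 := by
    rw [← hcomb]
    ring
  rw [e1] at hconv
  have h9 : Real.exp (9 / 2) ≤ 108 := by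
    have h1 : Real.exp (9 / 2) ^ 2 = Real.exp 1 ^ 9 := by
      rw [← Real.exp_nat_mul, ← Real.exp_nat_mul]
      norm_num
    have h2 : Real.exp 1 ^ 9 ≤ 2.7182818286 ^ 9 :=
      pow_le_pow_left₀ (Real.exp_pos 1).le Real.exp_one_lt_d9.le 9
    have h3 : (2.7182818286 : ℝ) ^ 9 ≤ 108 ^ 2 := by norm_num
    have h4 : Real.exp (9 / 2) ^ 2 ≤ 108 ^ 2 := by rw [h1]; exact h2.trans h3
    exact le_of_sq_le_sq h4 (by norm_num)
  have h2 : Real.exp (Real.log 2 / 2) ≤ 12 * Real.log 2 := by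
    have h1 : Real.exp (Real.log 2 / 2) ≤ Real.exp (Real.log 2) :=
      Real.exp_le_exp.2 (by linarith)
    rw [Real.exp_log (by norm_num)] at h1
    linarith
  have h3 : a * Real.exp (Real.log 2 / 2) ≤ a * (12 * Real.log 2) :=
    mul_le_mul_of_nonneg_left h2 ha0
  have h4 : b * Real.exp (9 / 2) ≤ b * 108 := mul_le_mul_of_nonneg_left h9 hb0
  have h5 : a * (12 * Real.log 2) + b * 108 = 12 * t := by
    rw [← hcomb]
    ring
  linarith

theorem pf_NUMX : T_NUMX := by
  intro k hk hsmall ρ α A hρ hα hA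
  have hL9 := nine_le hk hsmall
  have hk0 : (0 : ℝ) < k := by positivity
  have hk1 : (1 : ℝ) ≤ k := by
    have : (2 : ℝ) ≤ k := by exact_mod_cast hk
    linarith
  have hx0 : 0 < √(k : ℝ) := Real.sqrt_pos.2 hk0
  have hxx : √(k : ℝ) * √(k : ℝ) = k := Real.mul_self_sqrt hk0.le
  have hexp : √(k : ℝ) = Real.exp (Real.log k / 2) := by
    rw [Real.exp_half, Real.exp_log hk0]
  rw [div_lt_one hx0] at hsmall
  set L := Real.log k with hL
  set x := √(k : ℝ) with hx
  have hL0 : 0 < L := by linarith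
  have hxne : x ≠ 0 := hx0.ne'
  have hLne : L ≠ 0 := hL0.ne'
  have hx108 : 108 < x := by linarith
  have hy4 : 4 < x / (3 * L) := by
    rw [lt_div_iff₀ (by positivity)]
    linarith
  have hρ1 : x / (3 * L) ≤ ρ := by
    rw [hρ]
    exact Nat.le_ceil _
  have hρ2 : (ρ : ℝ) ≤ 5 * x / (12 * L) := by
    have h1 : (ρ : ℝ) < x / (3 * L) + 1 := by
      rw [hρ]
      exact Nat.ceil_lt_add_one (by positivity)
    have h2 : 5 * x / (12 * L) = x / (3 * L) + x / (3 * L) / 4 := by
      field_simp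
      ring
    rw [h2]
    linarith
  have hρpos : (0 : ℝ) < ρ := by linarith
  have hα' : α = L / (x * x) := by rw [hα, hxx]
  have hα0 : 0 < α := by rw [hα']; positivity
  have hlow : 4 / (3 * x) ≤ 4 * ρ * α := by
    have h1 : 4 / (3 * x) = 4 * (x / (3 * L)) * α := by
      rw [hα']
      field_simp
    rw [h1]
    gcongr
  have hup : 4 * ρ * α ≤ 5 / (3 * x) := by
    have h1 : 5 / (3 * x) = 4 * (5 * x / (12 * L)) * α := by
      rw [hα']
      field_simp
      norm_num
    rw [h1]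
    gcongr
  have hq0 : 0 < 4 * (ρ : ℝ) * α := by positivity
  have h2a := Real.log_two_gt_d9
  have h2b := Real.log_two_lt_d9
  -- the logarithm
  have hlog : Real.log (Real.exp 1 * ((16 * k ^ 2 + 1 : ℕ) : ℝ) / (4 * ρ * α)) ≤ 3 * L := by
    have hnum : (((16 * k ^ 2 + 1 : ℕ) : ℕ) : ℝ) ≤ 17 * (x * x) ^ 2 := by
      push_cast
      rw [hxx]
      nlinarith
    have h1 : Real.exp 1 * ((16 * k ^ 2 + 1 : ℕ) : ℝ) / (4 * ρ * α) ≤
        Real.exp 1 * (17 * (x * x) ^ 2) * (3 * x / 4) := by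
      rw [div_le_iff₀ hq0]
      have h2 : 1 ≤ 3 * x / 4 * (4 * ρ * α) := by
        have h3 : 3 * x / 4 * (4 / (3 * x)) = 1 := by
          field_simp
        rw [← h3]
        gcongr
      have h4 : Real.exp 1 * ((16 * k ^ 2 + 1 : ℕ) : ℝ) ≤ Real.exp 1 * (17 * (x * x) ^ 2) :=
        mul_le_mul_of_nonneg_left hnum (Real.exp_pos 1).le
      have h5 : 0 ≤ Real.exp 1 * (17 * (x * x) ^ 2) := by positivity
      calc Real.exp 1 * ((16 * k ^ 2 + 1 : ℕ) : ℝ) ≤ Real.exp 1 * (17 * (x * x) ^ 2) * 1 := by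
            rw [mul_one]
            exact h4
        _ ≤ Real.exp 1 * (17 * (x * x) ^ 2) * (3 * x / 4 * (4 * ρ * α)) :=
            mul_le_mul_of_nonneg_left h2 h5
        _ = _ := by ring
    have h6 : Real.exp 1 * (17 * (x * x) ^ 2) * (3 * x / 4) ≤ Real.exp (3 * L) := by
      have h7 : (17 : ℝ) * (3 / 4) ≤ Real.exp 3 := by
        have h8 : Real.exp 3 = Real.exp 1 ^ 3 := by
          rw [← Real.exp_nat_mul]
          norm_num
        have h9 := Real.exp_one_gt_d9
        have h10 : (2.7182818283 : ℝ) ^ 3 ≤ Real.exp 1 ^ 3 :=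
          pow_le_pow_left₀ (by norm_num) h9.le 3
        rw [h8]
        refine le_trans ?_ h10
        norm_num
      have h11 : x ^ 5 = Real.exp (5 / 2 * L) := by
        rw [hexp, ← Real.exp_nat_mul]
        congr 1
        push_cast
        ring
      have h12 : Real.exp 1 * (17 * (x * x) ^ 2) * (3 * x / 4) =
          Real.exp 1 * (17 * (3 / 4)) * x ^ 5 := by ring
      rw [h12, h11]
      calc Real.exp 1 * (17 * (3 / 4)) * Real.exp (5 / 2 * L)
          ≤ Real.exp 1 * Real.exp 3 * Real.exp (5 / 2 * L) := by gcongr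
        _ = Real.exp (1 + 3 + 5 / 2 * L) := by rw [Real.exp_add, Real.exp_add]
        _ ≤ Real.exp (3 * L) := Real.exp_le_exp.2 (by linarith)
    have h13 : 0 < Real.exp 1 * ((16 * k ^ 2 + 1 : ℕ) : ℝ) / (4 * ρ * α) := by positivity
    rw [Real.log_le_iff_le_exp h13]
    exact h1.trans h6
  have hterm1 : 4 * ρ * α * Real.log (Real.exp 1 * ((16 * k ^ 2 + 1 : ℕ) : ℝ) / (4 * ρ * α)) ≤
      5 * (L / x) := by
    calc 4 * ρ * α * Real.log (Real.exp 1 * ((16 * k ^ 2 + 1 : ℕ) : ℝ) / (4 * ρ * α))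
        ≤ 4 * ρ * α * (3 * L) := mul_le_mul_of_nonneg_left hlog hq0.le
      _ ≤ 5 / (3 * x) * (3 * L) := mul_le_mul_of_nonneg_right hup (by positivity)
      _ = 5 * (L / x) := by field_simp
  have hterm2 : Real.exp (-(9 / 5 * (α * k))) ≤ 1 / 100 * (L / x) := by
    have h1 : α * k = L := by
      rw [hα]
      field_simp
    have h2 : Real.exp (-(9 / 5 * L)) = x⁻¹ * Real.exp (-(13 / 10 * L)) := by
      rw [hexp, ← Real.exp_neg, ← Real.exp_add]
      congr 1
      ring
    have h3 : Real.exp (-(13 / 10 * L)) ≤ 1 / 100 * L := by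
      rw [Real.exp_neg, inv_le_iff_one_le_mul₀ (Real.exp_pos _)]
      have h4 := Real.add_one_le_exp (13 / 10 * L)
      have h5 : 0 ≤ 1 / 100 * L := by positivity
      have h6 := mul_le_mul_of_nonneg_left h4 h5
      nlinarith
    rw [h1, h2]
    calc x⁻¹ * Real.exp (-(13 / 10 * L)) ≤ x⁻¹ * (1 / 100 * L) := by gcongr
      _ = 1 / 100 * (L / x) := by
        rw [div_eq_mul_inv L x]
        ring
  have hz0 : 0 < L / x := by positivity
  have hA' : A ≤ 501 / 100 * (L / x) := by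
    rw [hA]
    linarith
  have heta : 12 * L / x * Real.log 2 = 12 * Real.log 2 * (L / x) := by ring
  have heta' : 831 / 100 * (L / x) ≤ 12 * L / x * Real.log 2 := by
    rw [heta]
    exact mul_le_mul_of_nonneg_right (by linarith) hz0.le
  refine ⟨?_, ?_, ?_, ?_⟩
  · have : (0 : ℝ) < (ρ : ℝ) := hρpos
    exact_mod_cast this
  · refine hup.trans ?_
    rw [div_le_one (by positivity)]
    linarith
  · nlinarith
  · have h1 : 330 / 100 * (L / x) ≤ 12 * L / x * Real.log 2 - A := by linarith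
    have h2 : x / (3 * L) * (330 / 100 * (L / x)) = 11 / 10 := by
      field_simp
      norm_num
    have h3 : x / (3 * L) * (330 / 100 * (L / x)) ≤ ρ * (12 * L / x * Real.log 2 - A) :=
      mul_le_mul hρ1 h1 (by positivity) hρpos.le
    linarith

end Pool.Agent.H40.LA
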